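import Pool.Agent.Helper43_HAM.Stmts2

/-!
# HAM: increasing lists and binomial coefficients
-/

set_option autoImplicit false

namespace Pool.Agent.HAM.H38

open Pool.Agent.HAM

theorem cl1 : Cl1Stmt := by
  intro X _ S K hS
  classical
  have hTS : S.ncard = hS.toFinset.card := Set.ncard_eq_toFinset_card S hS
  have hmem : ∀ x, x ∈ hS.toFinset ↔ x ∈ S := fun x => hS.mem_toFinset
  generalize hS.toFinset = T at hTS hmem
  have hnd : ∀ l : List X, l.Pairwise (· < ·) → l.Nodup := fun l hl =>
    hl.imp (fun h => ne_of_lt h)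
  have hle : ∀ l : List X, l.Pairwise (· < ·) → l.Pairwise (· ≤ ·) := fun l hl =>
    hl.imp (fun h => le_of_lt h)
  let e : {l : List X // l.Pairwise (· < ·) ∧ (∀ x ∈ l, x ∈ S) ∧ 1 ≤ l.length ∧
      l.length ≤ K} ≃ ↥((Finset.Icc 1 K).biUnion fun j => T.powersetCard j) :=
    { toFun := fun l => ⟨l.1.toFinset, by
        rw [Finset.mem_biUnion]
        refine ⟨l.1.length, Finset.mem_Icc.2 l.2.2.2, ?_⟩
        rw [Finset.mem_powersetCard]
        refine ⟨fun x hx => ?_, ?_⟩
        · exact (hmem x).2 (l.2.2.1 x (List.mem_toFinset.1 hx))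
        · exact List.toFinset_card_of_nodup (hnd _ l.2.1)⟩
      invFun := fun s => ⟨s.1.sort, by
        obtain ⟨j, hj, hs⟩ := Finset.mem_biUnion.1 s.2
        rw [Finset.mem_powersetCard] at hs
        rw [Finset.mem_Icc] at hj
        refine ⟨(Finset.sortedLT_sort s.1).pairwise, fun x hx => ?_, ?_⟩
        · exact (hmem x).1 (hs.1 ((Finset.mem_sort _).1 hx))
        · rw [Finset.length_sort, hs.2]
          exact hj⟩
      left_inv := fun l => by
        apply Subtype.ext
        exact (List.toFinset_sort (· ≤ ·) (hnd _ l.2.1)).2 (hle _ l.2.1)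
      right_inv := fun s => by
        apply Subtype.ext
        exact Finset.sort_toFinset _ _ }
  rw [Nat.card_congr e, Nat.card_eq_fintype_card, Fintype.card_coe, Finset.card_biUnion]
  · refine Finset.sum_congr rfl fun j _ => ?_
    rw [Finset.card_powersetCard, hTS]
  · intro i _ j _ hij
    exact Finset.pairwise_disjoint_powersetCard T hij

end Pool.Agent.HAM.H38
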