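import Pool.Agent.Helper43_HAM.Stmts2

/-!
# HAM: an automaton for the encodings of increasing lists of words
-/

set_option autoImplicit false

namespace Pool.Agent.HAM.H38

open Pool.Agent.HAM

/-! ### Predicates recognised by finite automata -/

/-- recognised by a finite automaton -/
def Rg {A : Type} (P : List A → Prop) : Prop :=
  ∃ (S : Type) (_ : Fintype S) (δ : S → A → S) (s₀ : S) (acc : S → Bool),
    ∀ c : List A, acc (c.foldl δ s₀) = true ↔ P c

theorem Rg.congr {A : Type} {P Q : List A → Prop} (h : Rg P) (e : ∀ c, P c ↔ Q c) : Rg Q := by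
  obtain ⟨S, i, δ, s, acc, hh⟩ := h
  exact ⟨S, i, δ, s, acc, fun c => (hh c).trans (e c)⟩

theorem Rg.all {A ι : Type} [Fintype ι] {P : ι → List A → Prop} (h : ∀ i, Rg (P i)) :
    Rg (fun c => ∀ i, P i c) := by
  classical
  choose S hS δ s acc hh using h
  refine ⟨∀ i, S i, inferInstance, fun s a i => δ i (s i) a, s,
    fun s => decide (∀ i, acc i (s i) = true), fun c => ?_⟩
  have h1 : ∀ (c : List A) (s : ∀ i, S i),
      c.foldl (fun s a i => δ i (s i) a) s = fun i => c.foldl (δ i) (s i) := by
    intro c
    induction c with
    | nil => intro s; rfl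
    | cons a c ih => intro s; rw [List.foldl_cons, ih]; rfl
  rw [h1]
  simp [hh]

theorem Rg.and {A : Type} {P Q : List A → Prop} (h : Rg P) (h' : Rg Q) :
    Rg (fun c => P c ∧ Q c) := by
  refine (Rg.all (ι := Bool) (P := fun b => if b then P else Q) (fun b => ?_)).congr ?_
  · cases b
    · exact h'
    · exact h
  · intro c
    constructor
    · intro hh
      exact ⟨by simpa using hh true, by simpa using hh false⟩
    · rintro ⟨h1, h2⟩ b
      cases b
      · simpa using h2
      · simpa using h1

theorem Rg.const {A : Type} (p : Prop) : Rg (fun _ : List A => p) := by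
  classical
  exact ⟨Unit, inferInstance, fun _ _ => (), (), fun _ => decide p, fun c => by simp⟩

theorem Rg.imp {A : Type} {P : List A → Prop} (p : Prop) (h : p → Rg P) :
    Rg (fun c => p → P c) := by
  classical
  by_cases hp : p
  · exact (h hp).congr fun c => by simp [hp]
  · exact (Rg.const True).congr fun c => by simp [hp]

theorem rg_forall_mem {A : Type} (p : A → Prop) : Rg (fun c : List A => ∀ a ∈ c, p a) := by
  classical
  refine ⟨Bool, inferInstance, fun s a => s && decide (p a), true, id, fun c => ?_⟩
  have h1 : ∀ (c : List A) (s : Bool), c.foldl (fun s a => s && decide (p a)) s = true ↔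
      s = true ∧ ∀ a ∈ c, p a := by
    intro c
    induction c with
    | nil => intro s; simp
    | cons a c ih =>
      intro s
      rw [List.foldl_cons, ih]
      simp [and_assoc]
  rw [id, h1]
  simp

theorem rg_pairwise {A : Type} (p : A → Prop) :
    Rg (fun c : List A => c.Pairwise fun a b => p a → p b) := by
  classical
  refine ⟨Bool × Bool, inferInstance, fun s a => (s.1 && (!s.2 || decide (p a)),
    s.2 || decide (p a)), (true, false), Prod.fst, fun c => ?_⟩
  have h1 : ∀ (c : List A) (s : Bool × Bool), (c.foldl (fun (s : Bool × Bool) a =>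
      (s.1 && (!s.2 || decide (p a)), s.2 || decide (p a))) s).1 = true ↔
      s.1 = true ∧ (s.2 = true → ∀ a ∈ c, p a) ∧ c.Pairwise fun a b => p a → p b := by
    intro c
    induction c with
    | nil => intro s; simp
    | cons a c ih =>
      rintro ⟨s, t⟩
      rw [List.foldl_cons, ih, List.pairwise_cons]
      cases s <;> cases t <;> by_cases ha : p a <;> simp [ha]
  rw [h1]
  simp

theorem rg_last {A : Type} (p : A → Prop) :
    Rg (fun c : List A => ∀ a ∈ c.getLast?, p a) := by
  classical
  refine ⟨Bool, inferInstance, fun _ a => decide (p a), true, id, fun c => ?_⟩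
  induction c using List.reverseRecOn with
  | nil => simp
  | append_singleton c a _ => simp

/-- order of letters, `none` is the smallest -/
def olt {B : Type} [LT B] : Option B → Option B → Prop
  | none, some _ => True
  | some a, some b => a < b
  | _, none => False

/-- lexicographic order of two tracks -/
def Lx {G B : Type} [LT B] (u v : G → Option B) : List G → Prop
  | [] => False
  | g :: w => olt (u g) (v g) ∨ (u g = v g ∧ Lx u v w)

theorem rg_lx {G B : Type} [LT B] (u v : G → Option B) : Rg (Lx u v) := by
  classical
  refine ⟨Option Bool, inferInstance, fun s g => match s with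
    | some r => some r
    | none => if olt (u g) (v g) then some true else if u g = v g then none else some false,
    none, fun s => s == some true, fun c => ?_⟩
  have h1 : ∀ (c : List G) (r : Bool), c.foldl (fun s g => match s with
      | some r => some r
      | none => if olt (u g) (v g) then some true else if u g = v g then none else some false)
      (some r) = some r := by
    intro c
    induction c with
    | nil => intro r; rfl
    | cons a c ih => intro r; rw [List.foldl_cons]; exact ih r
  induction c with
  | nil => simp [Lx]
  | cons g c ih =>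
    rw [List.foldl_cons]
    by_cases h2 : olt (u g) (v g)
    · simp only [h2, if_true, h1, Lx]
      simp
    · by_cases h3 : u g = v g
      · simp only [h3, if_true, Lx]
        rw [h3] at h2
        simp only [h2, if_false, false_or, true_and]
        exact ih
      · simp only [h2, h3, if_false, h1, Lx]
        simp

/-- words which start with a letter of the first kind -/
theorem rg_lift {K : ℕ} {G : Type} {Q : Fin K → List G → Prop} (h : ∀ j, Rg (Q j)) :
    Rg (fun c : List (Fin K ⊕ G) => ∃ j w, c = .inl j :: w.map .inr ∧ Q j w) := by
  classical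
  choose S hS δ s acc hh using h
  let δ' : Option (Option (Σ j, S j)) → Fin K ⊕ G → Option (Option (Σ j, S j)) := fun st a =>
    match st, a with
    | none, .inl j => some (some ⟨j, s j⟩)
    | none, .inr _ => some none
    | some none, _ => some none
    | some (some _), .inl _ => some none
    | some (some q), .inr g => some (some ⟨q.1, δ q.1 q.2 g⟩)
  let acc' : Option (Option (Σ j, S j)) → Bool := fun st =>
    match st with
    | some (some q) => acc q.1 q.2
    | _ => false
  have h1 : ∀ c : List (Fin K ⊕ G), c.foldl δ' (some none) = some none := by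
    intro c
    induction c with
    | nil => rfl
    | cons a c ih => rw [List.foldl_cons]; exact ih
  have h2 : ∀ (c : List (Fin K ⊕ G)) (j : Fin K) (q : S j),
      acc' (c.foldl δ' (some (some ⟨j, q⟩))) = true ↔
      ∃ w : List G, c = w.map .inr ∧ acc j (w.foldl (δ j) q) = true := by
    intro c
    induction c with
    | nil =>
      intro j q
      constructor
      · intro hq
        exact ⟨[], rfl, hq⟩
      · rintro ⟨w, hw, hq⟩
        have : w = [] := by simpa using hw.symm
        subst this
        exact hq
    | cons a c ih =>
      intro j q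
      rw [List.foldl_cons]
      rcases a with i | g
      · constructor
        · intro hq
          have hq' : acc' (c.foldl δ' (some none)) = true := hq
          rw [h1] at hq'
          exact absurd hq' (by simp [acc'])
        · rintro ⟨w, hw, hq⟩
          cases w <;> simp at hw
      · have h3 := ih j (δ j q g)
        constructor
        · intro hq
          obtain ⟨w, hw, hq'⟩ := h3.1 hq
          exact ⟨g :: w, by rw [hw]; rfl, hq'⟩
        · rintro ⟨w, hw, hq⟩
          rcases w with _ | ⟨g', w⟩
          · simp at hw
          · rw [List.map_cons, List.cons.injEq] at hw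
            obtain ⟨hw1, hw2⟩ := hw
            have hg : g = g' := Sum.inr.inj hw1
            subst hg
            exact h3.2 ⟨w, hw2, hq⟩
  refine ⟨Option (Option (Σ j, S j)), inferInstance, δ', none, acc', fun c => ?_⟩
  rcases c with _ | ⟨a, c⟩
  · constructor
    · intro hq
      exact absurd hq (by simp [acc'])
    · rintro ⟨j, w, hw, _⟩
      simp at hw
  · rw [List.foldl_cons]
    rcases a with j | g
    · have h3 := h2 c j (s j)
      constructor
      · intro hq
        obtain ⟨w, hw, hq'⟩ := h3.1 hq
        exact ⟨j, w, by rw [hw], (hh j w).1 hq'⟩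
      · rintro ⟨j', w, hw, hq⟩
        rw [List.cons.injEq] at hw
        obtain ⟨hw1, hw2⟩ := hw
        have hj : j = j' := Sum.inl.inj hw1
        subst hj
        exact h3.2 ⟨w, hw2, (hh j w).2 hq⟩
    · constructor
      · intro hq
        have hq' : acc' (c.foldl δ' (some none)) = true := hq
        rw [h1] at hq'
        exact absurd hq' (by simp [acc'])
      · rintro ⟨j, w, hw, _⟩
        simp at hw

/-! ### Tracks -/

/-- the word on the track `u` -/
def tk {G B : Type} (u : G → Option B) (w : List G) : List B := w.flatMap fun g => (u g).toList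

@[simp] theorem tk_nil {G B : Type} (u : G → Option B) : tk u [] = [] := rfl

@[simp] theorem tk_cons {G B : Type} (u : G → Option B) (g : G) (w : List G) :
    tk u (g :: w) = (u g).toList ++ tk u w := by simp [tk]

theorem tk_eq_nil {G B : Type} (u : G → Option B) (w : List G) (h : ∀ g ∈ w, u g = none) :
    tk u w = [] := by
  induction w with
  | nil => rfl
  | cons g w ih =>
    rw [tk_cons, h g (by simp), ih fun g' hg' => h g' (by simp [hg'])]
    rfl

theorem tk_get {G B : Type} (u : G → Option B) (w : List G)
    (h : w.Pairwise fun a b => u a = none → u b = none) (t : ℕ) :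
    (tk u w)[t]? = (w[t]?).bind u := by
  induction w generalizing t with
  | nil => simp
  | cons g w ih =>
    rw [List.pairwise_cons] at h
    rcases hg : u g with _ | b
    · rw [tk_eq_nil u (g :: w) (by
        intro g' hg'
        rcases List.mem_cons.1 hg' with rfl | hg''
        · exact hg
        · exact h.1 g' hg'' hg)]
      rcases t with _ | t
      · simp [hg]
      · rw [List.getElem?_cons_succ]
        rcases hw : w[t]? with _ | g'
        · simp
        · have := h.1 g' (List.mem_of_getElem? hw) hg
          simp [this]
    · rw [tk_cons, hg]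
      rcases t with _ | t
      · simp [hg]
      · simp only [Option.toList_some, List.singleton_append, List.getElem?_cons_succ]
        exact ih h.2 t

theorem lx_iff {G B : Type} [LinearOrder B] (u v : G → Option B) (w : List G)
    (hu : w.Pairwise fun a b => u a = none → u b = none)
    (hv : w.Pairwise fun a b => v a = none → v b = none) :
    Lx u v w ↔ tk u w < tk v w := by
  induction w with
  | nil => simp [Lx]
  | cons g w ih =>
    rw [List.pairwise_cons] at hu hv
    have ih' := ih hu.2 hv.2
    rcases hg : u g with _ | a <;> rcases hg' : v g with _ | b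
    · have h1 : tk u w = [] := tk_eq_nil u w fun g' h' => hu.1 g' h' hg
      have h2 : tk v w = [] := tk_eq_nil v w fun g' h' => hv.1 g' h' hg'
      simp [Lx, hg, hg', olt, ih', h1, h2]
    · have h1 : tk u w = [] := tk_eq_nil u w fun g' h' => hu.1 g' h' hg
      simp [Lx, hg, hg', olt, h1]
    · have h2 : tk v w = [] := tk_eq_nil v w fun g' h' => hv.1 g' h' hg'
      simp [Lx, hg, hg', olt, h2]
    · simp only [Lx, hg, hg', olt, ih', tk_cons, Option.toList_some, List.singleton_append,
        Option.some.injEq]
      rw [List.cons_lt_cons_iff]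

/-! ### Encodings -/

/-- the letters of the encoding of `l` -/
def wd {B : Type} (K N : ℕ) (l : List (List B)) : List (Fin K → Option B) :=
  (List.range N).map fun t => fun i => (l.getD i.val [])[t]?

/-- the longest length -/
def mx {B : Type} (l : List (List B)) : ℕ := (l.map List.length).foldr max 0

theorem mx_le {B : Type} (l : List (List B)) (N : ℕ) : mx l ≤ N ↔ ∀ c ∈ l, c.length ≤ N := by
  unfold mx
  induction l with
  | nil => simp
  | cons c l ih => simp [ih]

theorem le_mx {B : Type} (l : List (List B)) {c : List B} (hc : c ∈ l) : c.length ≤ mx l :=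
  (mx_le l _).1 le_rfl c hc

theorem getD_mem_or {B : Type} (l : List (List B)) (i : ℕ) :
    l.getD i [] ∈ l ∨ l.getD i [] = [] := by
  by_cases h : i < l.length
  · left
    rw [List.getD_eq_getElem _ _ h]
    exact List.getElem_mem h
  · right
    exact List.getD_eq_default _ _ (by omega)

theorem getD_length_le {B : Type} (l : List (List B)) (i : ℕ) : (l.getD i []).length ≤ mx l := by
  rcases getD_mem_or l i with h | h
  · exact le_mx l h
  · rw [h]
    simp

theorem encT_eq {K : ℕ} (hK : 0 < K) {B : Type} (l : List (List B)) :
    encT K hK B l = .inl ⟨(l.length - 1) % K, Nat.mod_lt _ hK⟩ :: (wd K (mx l) l).map .inr := by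
  simp [encT, wd, mx, List.map_map, Function.comp_def]

theorem wd_pairwise {B : Type} (K N : ℕ) (l : List (List B)) (i : Fin K) :
    (wd K N l).Pairwise fun a b => a i = none → b i = none := by
  unfold wd
  rw [List.pairwise_map]
  refine List.pairwise_lt_range.imp ?_
  intro s t hst h
  rw [List.getElem?_eq_none_iff] at h ⊢
  omega

theorem tk_wd {B : Type} (K N : ℕ) (l : List (List B)) (i : Fin K)
    (h : (l.getD i.val []).length ≤ N) : tk (fun g => g i) (wd K N l) = l.getD i.val [] := by
  apply List.ext_getElem?
  intro t
  rw [tk_get _ _ (wd_pairwise K N l i)]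
  unfold wd
  rw [List.getElem?_map, Option.bind_map]
  by_cases ht : t < N
  · rw [List.getElem?_range ht]
    simp
  · rw [List.getElem?_eq_none_iff.2 (by simp; omega)]
    rw [List.getElem?_eq_none_iff.2 (by omega)]
    rfl

theorem track_cons {K : ℕ} {B : Type} (i j : Fin K) (w : List (Fin K → Option B)) :
    track i (.inl j :: w.map .inr : List (TL K B)) = tk (fun g => g i) w := by
  unfold track tk
  rw [List.flatMap_cons, List.flatMap_map]
  rfl

theorem track_encT {K : ℕ} (hK : 0 < K) {B : Type} (l : List (List B)) (i : Fin K) :
    track i (encT K hK B l) = l.getD i.val [] := by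
  rw [encT_eq, track_cons, tk_wd _ _ _ _ (getD_length_le l i.val)]

theorem length_encT {K : ℕ} (hK : 0 < K) {B : Type} (l : List (List B)) :
    (encT K hK B l).length = mx l + 1 := by
  rw [encT_eq]
  simp [wd]

theorem encT_inj {K : ℕ} (hK : 0 < K) {B : Type} (l l' : List (List B)) (h1 : 1 ≤ l.length)
    (h2 : l.length ≤ K) (h1' : 1 ≤ l'.length) (h2' : l'.length ≤ K)
    (h : encT K hK B l = encT K hK B l') : l = l' := by
  have hlen : l.length = l'.length := by
    rw [encT_eq, encT_eq, List.cons.injEq] at h
    have h3 := congrArg Fin.val (Sum.inl.inj h.1)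
    simp only at h3
    rw [Nat.mod_eq_of_lt (by omega), Nat.mod_eq_of_lt (by omega)] at h3
    omega
  apply List.ext_getElem hlen
  intro n hn hn'
  have h3 := track_encT hK l ⟨n, by omega⟩
  have h4 := track_encT hK l' ⟨n, by omega⟩
  rw [h, h4] at h3
  simp only at h3
  rw [List.getD_eq_getElem _ _ hn, List.getD_eq_getElem _ _ hn'] at h3
  exact h3.symm

/-- what the automaton checks -/
structure Ok {K : ℕ} {B : Type} [LT B] (j : Fin K) (w : List (Fin K → Option B)) : Prop where
  out : ∀ i : Fin K, j < i → ∀ g ∈ w, g i = none
  mono : ∀ i : Fin K, w.Pairwise fun a b => a i = none → b i = none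
  last : ∀ g ∈ w.getLast?, ∃ i, g i ≠ none
  lex : ∀ i : Fin K, ∀ h : i.val + 1 < K, i < j → Lx (fun g => g i) (fun g => g ⟨i.val + 1, h⟩) w

theorem rg_ok {K : ℕ} {B : Type} [LT B] (j : Fin K) :
    Rg (fun w : List (Fin K → Option B) => Ok j w) := by
  have h1 : Rg (fun w : List (Fin K → Option B) => ∀ i : Fin K, j < i → ∀ g ∈ w, g i = none) :=
    Rg.all fun i => Rg.imp _ fun _ => rg_forall_mem _
  have h2 : Rg (fun w : List (Fin K → Option B) =>
      ∀ i : Fin K, w.Pairwise fun a b => a i = none → b i = none) :=
    Rg.all fun i => rg_pairwise _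
  have h3 : Rg (fun w : List (Fin K → Option B) => ∀ g ∈ w.getLast?, ∃ i, g i ≠ none) :=
    rg_last _
  have h4 : Rg (fun w : List (Fin K → Option B) => ∀ i : Fin K, ∀ h : i.val + 1 < K, i < j →
      Lx (fun g => g i) (fun g => g ⟨i.val + 1, h⟩) w) := by
    refine Rg.all fun i => ?_
    by_cases h : i.val + 1 < K
    · refine (Rg.imp (i < j) fun _ => rg_lx (fun g : Fin K → Option B => g i)
        (fun g => g ⟨i.val + 1, h⟩)).congr fun c => ?_
      exact ⟨fun hh _ => hh, fun hh => hh h⟩
    · exact (Rg.const True).congr fun c => ⟨fun _ hh => absurd hh h, fun _ => trivial⟩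
  refine ((h1.and h2).and (h3.and h4)).congr fun c => ?_
  exact ⟨fun h => ⟨h.1.1, h.1.2, h.2.1, h.2.2⟩, fun h => ⟨⟨h.1, h.2⟩, h.3, h.4⟩⟩

theorem ok_iff {K : ℕ} (hK : 0 < K) {B : Type} [LinearOrder B] (c : List (TL K B)) :
    (∃ (j : Fin K) (w : List (Fin K → Option B)), c = .inl j :: w.map .inr ∧ Ok j w) ↔
    ∃ l : List (List B), 1 ≤ l.length ∧ l.length ≤ K ∧ l.Pairwise (· < ·) ∧
      c = encT K hK B l := by
  constructor
  · rintro ⟨j, w, rfl, hok⟩
    have hj := j.isLt
    let f : Fin (j.val + 1) → List B := fun i => tk (fun g => g ⟨i.val, by omega⟩) w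
    have hlt : ∀ (d a : ℕ) (hb : a + d + 1 < j.val + 1), f ⟨a, by omega⟩ < f ⟨a + d + 1, hb⟩ := by
      intro d
      induction d with
      | zero =>
        intro a hb
        have h1 := hok.lex ⟨a, by omega⟩ (by simp; omega) (by rw [Fin.lt_def]; simp; omega)
        rw [lx_iff _ _ _ (hok.mono _) (hok.mono _)] at h1
        exact h1
      | succ d ih =>
        intro a hb
        have h0 := ih a (by omega)
        have h1 := hok.lex ⟨a + d + 1, by omega⟩ (by simp; omega)
          (by rw [Fin.lt_def]; simp; omega)
        rw [lx_iff _ _ _ (hok.mono _) (hok.mono _)] at h1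
        exact lt_trans h0 h1
    have hf : ∀ i : Fin (j.val + 1), (List.ofFn f).getD i.val [] = f i := by
      intro i
      rw [List.getD_eq_getElem _ _ (by rw [List.length_ofFn]; exact i.isLt), List.getElem_ofFn]
    have hflen : ∀ i : Fin (j.val + 1), (f i).length ≤ w.length := by
      intro i
      by_contra hcon
      rw [not_le] at hcon
      have h1 : (f i)[w.length]? = none := by
        rw [show f i = tk (fun g => g ⟨i.val, by omega⟩) w from rfl, tk_get _ _ (hok.mono _)]
        simp
      rw [List.getElem?_eq_none_iff] at h1
      omega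
    have hmx : mx (List.ofFn f) = w.length := by
      apply le_antisymm
      · rw [mx_le]
        intro c hc
        rw [List.mem_ofFn] at hc
        obtain ⟨i, rfl⟩ := hc
        exact hflen i
      · rcases List.eq_nil_or_concat w with hw | ⟨w', g, hw⟩
        · rw [hw]
          simp
        · obtain ⟨i, hi⟩ := hok.last g (by rw [hw]; simp)
          have hij : i.val < j.val + 1 := by
            by_contra hcon
            apply hi
            exact hok.out i (by rw [Fin.lt_def]; omega) g (by rw [hw]; simp)
          have h1 : (f ⟨i.val, hij⟩)[w'.length]? = g i := by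
            rw [show f ⟨i.val, hij⟩ = tk (fun g => g i) w from rfl, tk_get _ _ (hok.mono _), hw]
            simp
          have h2 : w'.length < (f ⟨i.val, hij⟩).length := by
            by_contra hcon
            rw [not_lt] at hcon
            rw [List.getElem?_eq_none_iff.2 hcon] at h1
            exact hi h1.symm
          have h3 : (f ⟨i.val, hij⟩).length ≤ mx (List.ofFn f) :=
            le_mx _ (by rw [List.mem_ofFn]; exact ⟨_, rfl⟩)
          have h4 : w.length = w'.length + 1 := by
            rw [hw]
            simp
          omega
    refine ⟨List.ofFn f, by rw [List.length_ofFn]; omega, by rw [List.length_ofFn]; omega, ?_, ?_⟩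
    · rw [List.pairwise_ofFn]
      intro a b hab
      have h1 := hlt (b.val - a.val - 1) a.val (by rw [Fin.lt_def] at hab; omega)
      have h2 : a.val + (b.val - a.val - 1) + 1 = b.val := by rw [Fin.lt_def] at hab; omega
      have h3 : (⟨a.val + (b.val - a.val - 1) + 1, by omega⟩ : Fin (j.val + 1)) = b :=
        Fin.ext h2
      rw [h3] at h1
      exact h1
    · rw [encT_eq]
      have h1 : (⟨((List.ofFn f).length - 1) % K, Nat.mod_lt _ hK⟩ : Fin K) = j := by
        apply Fin.ext
        simp only [List.length_ofFn]
        rw [Nat.mod_eq_of_lt (by omega)]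
        omega
      rw [h1, hmx]
      congr 2
      apply List.ext_getElem?
      intro t
      unfold wd
      rw [List.getElem?_map]
      by_cases ht : t < w.length
      · rw [List.getElem?_range ht, List.getElem?_eq_getElem ht]
        simp only [Option.map_some, Option.some.injEq]
        funext i
        by_cases hij : i.val < j.val + 1
        · have h2 := hf ⟨i.val, hij⟩
          simp only at h2
          rw [h2, show f ⟨i.val, hij⟩ = tk (fun g => g i) w from rfl, tk_get _ _ (hok.mono _),
            List.getElem?_eq_getElem ht]
          rfl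
        · rw [hok.out i (by rw [Fin.lt_def]; omega) _ (List.getElem_mem ht),
            List.getD_eq_default _ _ (by simp; omega)]
          rfl
      · rw [List.getElem?_eq_none_iff.2 (by omega : w.length ≤ t),
          List.getElem?_eq_none_iff.2 (by simp; omega)]
        rfl
  · rintro ⟨l, h1, h2, h3, rfl⟩
    refine ⟨_, _, encT_eq hK l, ?_⟩
    have hj : (l.length - 1) % K = l.length - 1 := Nat.mod_eq_of_lt (by omega)
    refine ⟨?_, fun i => wd_pairwise _ _ _ _, ?_, ?_⟩
    · intro i hi g hg
      rw [Fin.lt_def] at hi
      simp only [hj] at hi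
      unfold wd at hg
      rw [List.mem_map] at hg
      obtain ⟨t, _, rfl⟩ := hg
      simp only
      rw [List.getD_eq_default _ _ (by omega)]
      rfl
    · intro g hg
      have h4 : mx l ≠ 0 := by
        intro h0
        rw [h0] at hg
        simp [wd] at hg
      obtain ⟨N, hN⟩ := Nat.exists_eq_succ_of_ne_zero h4
      rw [hN] at hg
      unfold wd at hg
      rw [List.range_succ, List.map_append] at hg
      simp only [List.map_cons, List.map_nil, List.getLast?_append, List.getLast?_singleton,
        Option.some_or, Option.mem_def, Option.some.injEq] at hg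
      by_contra hcon
      push Not at hcon
      have h5 : mx l ≤ N := by
        rw [mx_le]
        intro c hc
        obtain ⟨n, hn, rfl⟩ := List.mem_iff_getElem.1 hc
        have h6 := hcon ⟨n, by omega⟩
        rw [← hg] at h6
        simp only at h6
        rw [List.getD_eq_getElem _ _ hn, List.getElem?_eq_none_iff] at h6
        exact h6
      omega
    · intro i hi hij
      rw [lx_iff _ _ _ (wd_pairwise _ _ _ _) (wd_pairwise _ _ _ _),
        tk_wd _ _ _ _ (getD_length_le l _), tk_wd _ _ _ _ (getD_length_le l _)]
      rw [Fin.lt_def] at hij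
      simp only [hj] at hij
      simp only
      rw [List.getD_eq_getElem _ _ (by omega), List.getD_eq_getElem _ _ (by omega)]
      exact List.pairwise_iff_getElem.1 h3 _ _ _ _ (by omega)

theorem cl2 : Cl2Stmt := by
  intro K hK B _ _
  refine ⟨?_, ?_, ?_⟩
  · exact (rg_lift (fun j => rg_ok (B := B) j)).congr (ok_iff hK)
  · exact fun l l' h1 h2 h1' h2' h => encT_inj hK l l' h1 h2 h1' h2' h
  · intro l _ _
    refine ⟨track_encT hK l, fun N => ?_⟩
    rw [length_encT, Nat.add_le_add_iff_right, mx_le]

end Pool.Agent.HAM.H38
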